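import Pool.Agent.P.MP_0ad50f_co.D8.Alg

/-! Even graphs: variable edges with arbitrary steps whose removal keeps the components. -/

namespace Pool.Agent.P.MP_0ad50f_co.EV

set_option linter.unusedSectionVars false

open Finset MvPolynomial
open Pool.Agent.P.MP_0ad50f_co.D8

variable {V : Type} [Fintype V] [DecidableEq V]

theorem ev_top {F G : Finset (V × V)} (hG : G ⊆ F) (α γ : V × V → ℝ)
    (h0 : ∀ a ∈ F \ G, γ a = 0) :
    (∏ a ∈ F, (Polynomial.C (α a) + Polynomial.C (γ a) * Polynomial.X)).coeff G.card =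
      (∏ a ∈ F \ G, α a) * ∏ a ∈ G, γ a := by
  have e1 : ∏ a ∈ F \ G, (Polynomial.C (α a) + Polynomial.C (γ a) * Polynomial.X) =
      Polynomial.C (∏ a ∈ F \ G, α a) := by
    rw [map_prod]
    exact prod_congr rfl fun a ha => by rw [h0 a ha]; simp
  have e2 := Polynomial.coeff_prod_of_natDegree_le (s := G)
    (fun a => Polynomial.C (α a) + Polynomial.C (γ a) * Polynomial.X) 1
    (fun a _ => by rw [add_comm]; exact Polynomial.natDegree_linear_le)
  rw [mul_one] at e2
  rw [← prod_sdiff hG, e1, Polynomial.coeff_C_mul, e2]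
  congr 1
  exact prod_congr rfl fun a _ => by simp [Polynomial.coeff_C]

theorem ev_step (K U G : Finset (V × V)) (e : V → ℝ) (I : Finset (V × V) → Prop)
    (hI : ∀ F, I F → F ⊆ K) (h : conf U ∈ Submodule.span ℝ {g | ∃ F, I F ∧ g = pr F})
    (hG : ∀ a ∈ G, e a.1 + e a.2 ≠ 0) (hG' : ∀ a ∈ K, a ∉ G → e a.1 + e a.2 = 0)
    (hU : ∀ a ∈ U, e a.1 = e a.2) (hne : G.Nonempty) :
    conf U ∈ Submodule.span ℝ {g | ∃ F, (I F ∧ ¬ G ⊆ F) ∧ g = pr F} := by
  have hγ : ∏ a ∈ G, (e a.1 + e a.2) ≠ 0 := prod_ne_zero_iff.2 hG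
  have key : ∀ g ∈ Submodule.span ℝ {g | ∃ F, I F ∧ g = pr F},
      ∃ g' ∈ Submodule.span ℝ {g | ∃ F, (I F ∧ ¬ G ⊆ F) ∧ g = pr F}, ∀ x,
        eval x g = eval x g' + (along g x e).coeff G.card *
          (eval x (pr G) / ∏ a ∈ G, (e a.1 + e a.2)) := by
    intro g hg
    induction hg using Submodule.span_induction with
    | mem g hg =>
      obtain ⟨F, hF, rfl⟩ := hg
      by_cases hs : G ⊆ F
      · refine ⟨0, Submodule.zero_mem _, fun x => ?_⟩
        rw [rk_along_pr, ev_top hs _ _ fun a ha =>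
          hG' a (hI F hF (mem_sdiff.1 ha).1) (mem_sdiff.1 ha).2, rk_eval_pr, rk_eval_pr,
          ← prod_sdiff hs, map_zero, zero_add]
        field_simp
      · refine ⟨pr F, Submodule.subset_span ⟨F, ⟨hF, hs⟩, rfl⟩, fun x => ?_⟩
        rw [rk_along_pr, Polynomial.coeff_eq_zero_of_natDegree_lt, zero_mul, add_zero]
        refine (rk_deg _ _ _).trans_lt (card_lt_card ⟨fun a ha => ?_, fun k => hs fun a ha =>
          (mem_filter.1 (k ha)).1⟩)
        obtain ⟨k1, k2⟩ := mem_filter.1 ha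
        exact by_contra fun k3 => k2 (hG' a (hI F hF k1) k3)
    | zero => exact ⟨0, Submodule.zero_mem _, fun x => by simp [along]⟩
    | add f g _ _ hf hg =>
      obtain ⟨f', k1, k2⟩ := hf
      obtain ⟨g', k3, k4⟩ := hg
      refine ⟨f' + g', Submodule.add_mem _ k1 k3, fun x => ?_⟩
      have : along (f + g) x e = along f x e + along g x e := map_add _ _ _
      rw [this, map_add, map_add, Polynomial.coeff_add, k2, k4]
      ring
    | smul c f _ hf =>
      obtain ⟨f', k1, k2⟩ := hf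
      refine ⟨c • f', Submodule.smul_mem _ c k1, fun x => ?_⟩
      have : along (c • f) x e = c • along f x e := map_smul _ _ _
      rw [this, smul_eval, smul_eval, Polynomial.coeff_smul, k2, smul_eq_mul]
      ring
  obtain ⟨g', k1, k2⟩ := key _ h
  have : conf U = g' := by
    refine MvPolynomial.funext fun x => ?_
    rw [k2, rk_along_conf, Polynomial.coeff_eq_zero_of_natDegree_lt, zero_mul, add_zero]
    refine (rk_deg _ _ _).trans_lt ?_
    rw [filter_eq_empty_iff.2 fun a ha => by simp [hU a ha], card_empty]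
    exact hne.card_pos
  exact this ▸ k1

theorem ev_drop {E U : Finset (V × V)} (S : Finset V) (hU : U ⊆ unc E S)
    (I : Finset (V × V) → Prop) (hI : ∀ F, I F → F ⊆ out E S)
    (h : conf U ∈ Submodule.span ℝ {g | ∃ F, I F ∧ g = pr F}) :
    conf U ∈ Submodule.span ℝ {g | ∃ F, (I F ∧ ∀ W : Finset V, cut U W = ∅ →
      (cut (out E S) W).Nonempty → ¬ cut (out E S) W ⊆ F) ∧ g = pr F} := by
  have key : ∀ T : Finset (Finset V), conf U ∈ Submodule.span ℝ {g | ∃ F, (I F ∧
      ∀ W ∈ T, cut U W = ∅ → (cut (out E S) W).Nonempty → ¬ cut (out E S) W ⊆ F) ∧ g = pr F} := by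
    intro T
    induction T using Finset.induction_on with
    | empty => simpa using h
    | insert W T _ ih =>
      by_cases hw : cut U W = ∅ ∧ (cut (out E S) W).Nonempty
      · refine Submodule.span_mono ?_ (ev_step (out E S) U (cut (out E S) W)
          (fun v => if v ∈ W then (if v ∈ S then 1 else -1) else 0) _ (fun F k => hI F k.1) ih
          (fun a ha => ?_) (fun a ha hn => ?_) (fun a ha => ?_) hw.2)
        · rintro g ⟨F, ⟨⟨k1, k2⟩, k3⟩, rfl⟩
          refine ⟨F, ⟨k1, fun v hv => ?_⟩, rfl⟩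
          rcases mem_insert.1 hv with rfl | hv
          · exact fun _ _ => k3
          · exact k2 v hv
        · rw [mem_cut, mem_out] at ha
          by_cases h1 : a.1 ∈ W <;> by_cases h2 : a.2 ∈ W <;> simp_all
        · rw [mem_cut, not_and, not_not] at hn
          have h3 := hn ha
          rw [mem_out] at ha
          by_cases h1 : a.1 ∈ W <;> by_cases h2 : a.2 ∈ W <;> simp_all
        · have h3 : a.1 ∈ W ↔ a.2 ∈ W := by
            by_contra h4
            have : a ∈ cut U W := mem_cut.2 ⟨ha, h4⟩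
            rw [hw.1] at this
            exact notMem_empty _ this
          have h4 := (mem_unc.1 (hU ha)).2
          simp only [h3, h4]
      · refine Submodule.span_mono ?_ ih
        rintro g ⟨F, ⟨k1, k2⟩, rfl⟩
        refine ⟨F, ⟨k1, fun v hv => ?_⟩, rfl⟩
        rcases mem_insert.1 hv with rfl | hv
        · exact fun a b => absurd ⟨a, b⟩ hw
        · exact k2 v hv
  refine Submodule.span_mono ?_ (key univ)
  rintro g ⟨F, ⟨k1, k2⟩, rfl⟩
  exact ⟨F, ⟨k1, fun v => k2 v (mem_univ v)⟩, rfl⟩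

theorem ev_cn (K U F : Finset (V × V)) (hF : F ⊆ K)
    (h : coeff (expo F) (∏ a ∈ U, (ysum K a.1 - ysum K a.2)) ≠ 0) (b : V → ℤ) (p : V × V → ℤ)
    (hp : ∀ a ∈ F, p a ≠ 0) :
    ∃ l : V × V → ℤ, (∀ a ∈ F, l a = 0 ∨ l a = p a) ∧ ∀ a ∈ U,
      b a.1 + ∑ e ∈ inc F a.1, l e ≠ b a.2 + ∑ e ∈ inc F a.2, l e := by
  have hd := fi_degree K U _ h
  set Phi : MvPolynomial (V × V) ℝ :=
    ∏ a ∈ U, (C ((b a.1 : ℝ) - b a.2) + C 3 * (ysum K a.1 - ysum K a.2)) with hPhi
  have hc : coeff (expo F) Phi ≠ 0 := by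
    rw [hPhi, fi_top K (fun a => (b a.1 : ℝ) - b a.2) U _ hd.ge]
    exact mul_ne_zero (by positivity) h
  have hdeg : Phi.totalDegree = (expo F).degree := by
    refine le_antisymm ?_ (le_totalDegree (mem_support_iff.2 hc))
    refine Finset.sup_le fun t ht => ?_
    by_contra h1
    have h2 : U.card < t.degree := by
      rw [← hd]
      exact not_le.1 h1
    apply mem_support_iff.1 ht
    rw [hPhi, fi_top K (fun a => (b a.1 : ℝ) - b a.2) U _ h2.le]
    by_contra h3
    have := fi_degree K U t (right_ne_zero_of_mul h3)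
    omega
  obtain ⟨x, hx, hev⟩ := combinatorial_nullstellensatz_exists_eval_nonzero Phi (expo F) hc hdeg
    (fun e => if e ∈ F then {0, (p e : ℝ) / 3} else {0}) (by
      intro e
      rw [fi_expo_apply]
      split_ifs with he
      · have : (p e : ℝ) ≠ 0 := by exact_mod_cast hp e he
        rw [card_pair (by positivity : (p e : ℝ) / 3 ≠ 0).symm]; omega
      · simp)
  have hx0 : ∀ e, e ∉ F → x e = 0 := fun e he => by simpa [he] using hx e
  have hx1 : ∀ e ∈ F, (((if x e = 0 then 0 else p e : ℤ)) : ℝ) = 3 * x e := by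
    intro e he
    have h1 : x e = 0 ∨ x e = (p e : ℝ) / 3 := by simpa [he] using hx e
    split_ifs with h2
    · simp [h2]
    · rw [h1.resolve_left h2]
      ring
  have hy : ∀ v, 3 * eval x (ysum K v) =
      ((∑ e ∈ inc F v, (if x e = 0 then 0 else p e : ℤ) : ℤ) : ℝ) := by
    intro v
    unfold ysum
    rw [map_sum, Int.cast_sum]
    simp only [eval_X]
    have h1 : ∑ e ∈ inc F v, (((if x e = 0 then 0 else p e : ℤ)) : ℝ) = ∑ e ∈ inc F v, 3 * x e :=
      sum_congr rfl fun e he => hx1 e (mem_filter.1 he).1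
    have h2 : inc F v ⊆ inc K v := filter_subset_filter _ hF
    rw [h1, ← mul_sum]
    congr 1
    refine (sum_subset h2 fun e he he' => hx0 e fun h3 => he' ?_).symm
    exact mem_filter.2 ⟨h3, (mem_filter.1 he).2⟩
  refine ⟨fun e => if x e = 0 then 0 else p e, fun a _ => ?_, fun a ha heq => ?_⟩
  · by_cases h1 : x a = 0 <;> simp [h1]
  · apply hev
    rw [hPhi, map_prod]
    refine prod_eq_zero ha ?_
    simp only [map_add, map_mul, map_sub, eval_C, mul_sub, hy]
    have h2 := congrArg (fun z : ℤ => (z : ℝ)) heq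
    simp only [Int.cast_add] at h2
    linarith

/-- the cut, the variable edges and what they do -/
structure Var (E : Finset (V × V)) (S : Finset V) (F : Finset (V × V)) : Prop where
  le : ∀ v, deg (unc E S) v ≤ deg (cut E S) v
  sub : F ⊆ cut E S
  sy : Sy F
  half : ∀ v, 2 * deg F v ≤ deg E v + 1
  con : ∀ a ∈ E, Reach (E \ F) Prod.fst a.1 a.2
  sep : ∀ (b : V → ℤ) (p : V × V → ℤ), (∀ a ∈ F, p a.swap = p a ∧ p a ≠ 0) →
    ∃ l : V × V → ℤ, (∀ a ∈ F, l a.swap = l a ∧ (l a = 0 ∨ l a = p a)) ∧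
      ∀ a ∈ unc E S, b a.1 + sm F l a.1 ≠ b a.2 + sm F l a.2

theorem Var.compl {E F : Finset (V × V)} {S : Finset V} (h : Var E S F) : Var E Sᶜ F := by
  have h1 : cut E Sᶜ = cut E S := by
    ext a; simp only [mem_cut, mem_compl]; tauto
  have h2 : unc E Sᶜ = unc E S := by
    ext a; simp only [mem_unc, mem_compl]; tauto
  exact ⟨by rw [h1, h2]; exact h.le, by rw [h1]; exact h.sub, h.sy, h.half, h.con,
    by rw [h2]; exact h.sep⟩

theorem ev_algebra {E : Finset (V × V)} (hE : Sys E Prod.fst) : ∃ S F, Var E S F := by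
  classical
  obtain ⟨S, hmax, -⟩ := maxcut hE
  have hc := al_sys_cut hE S
  have hu := al_sys_unc hE S
  obtain ⟨U, hU⟩ := al_exists_ori hu
  have hKo : Ori (cut E S) (out E S) := al_ori_out E hE.sy S
  have hK : ∀ a ∈ out E S, a.1 ≠ a.2 := fun a ha e => by
    rw [mem_out] at ha
    exact ha.2.2 (e ▸ ha.2.1)
  have hUl : ∀ a ∈ U, a.1 ≠ a.2 := fun a ha e => hu.nl a (hU.sub ha) e.symm
  have h1 := span_rank hE S hmax hU
  simp only [← and_assoc] at h1
  have h2 := ev_drop S hU.sub (fun F => F ⊆ out E S ∧ ∀ v,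
    (deg (cut E S) v - deg (unc E S) v) / 2 + (inc F v).card ≤ deg (cut E S) v)
    (fun _ h => h.1) h1
  obtain ⟨P, ⟨⟨hPK, hP1⟩, hP2⟩, hco⟩ := exists_coeff (out E S) U hK hUl _ (fun _ h => h.1.1) h2
  have hsy : Sy (P ∪ P.image Prod.swap) := by
    intro a ha
    rw [mem_union] at ha ⊢
    rcases ha with ha | ha
    · exact Or.inr (mem_image_of_mem _ ha)
    · rw [mem_image] at ha
      obtain ⟨b, hb, rfl⟩ := ha
      exact Or.inl (by simpa using hb)
  have hsub : P ∪ P.image Prod.swap ⊆ cut E S := by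
    intro a ha
    rw [mem_union] at ha
    rcases ha with ha | ha
    · exact hKo.sub (hPK ha)
    · rw [mem_image] at ha
      obtain ⟨b, hb, rfl⟩ := ha
      exact hc.sy b (hKo.sub (hPK hb))
  have hF : Sys (P ∪ P.image Prod.swap) Prod.fst := hc.mono hsub hsy
  have hP : Ori (P ∪ P.image Prod.swap) P := by
    refine ⟨subset_union_left, fun a ha => ⟨fun h h' => ?_, fun h => ?_⟩⟩
    · exact (mem_out.1 (hPK h)).2.2 (mem_out.1 (hPK h')).2.1
    · rw [mem_union] at ha
      refine ha.resolve_right fun hb => ?_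
      rw [mem_image] at hb
      obtain ⟨b, hb, rfl⟩ := hb
      exact h (by simpa using hb)
  have hle : ∀ v, deg (unc E S) v ≤ deg (cut E S) v := fun v => by
    have := hmax {v}
    rwa [al_out_single hc, al_out_single hu] at this
  refine ⟨S, P ∪ P.image Prod.swap, hle, hsub, hsy, fun v => ?_, fun a ha => ?_, fun b p hp => ?_⟩
  · rw [al_ori_deg hF hP]
    have h3 := hP1 v
    have h4 := hle v
    have h5 : deg (cut E S) v + deg (unc E S) v = deg E v := dg_cut_unc E S _ v
    omega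
  · by_contra hn
    set F := P ∪ P.image Prod.swap with hFd
    have hH : Sy (E \ F) := hE.sy.sdiff hsy
    let W : Finset V := univ.filter fun x => Reach (E \ F) Prod.fst a.1 x
    have hW : ∀ x, x ∈ W ↔ Reach (E \ F) Prod.fst a.1 x := fun x => by simp [W]
    have hcl : ∀ c ∈ E, c ∉ F → (c.1 ∈ W ↔ c.2 ∈ W) := fun c hc1 hc2 => by
      have h3 : Reach (E \ F) Prod.fst c.1 c.2 := Reach.dart Prod.fst (mem_sdiff.2 ⟨hc1, hc2⟩)
      rw [hW, hW]
      exact ⟨fun h => h.trans h3, fun h => h.trans (h3.symm hH)⟩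
    have ha1 : a.1 ∈ W := (hW _).2 (Reach.refl _ _ _)
    have ha2 : a.2 ∉ W := fun h => hn ((hW _).1 h)
    have haF : a ∈ F := by_contra fun h => ha2 ((hcl a ha h).1 ha1)
    refine hP2 W ?_ ?_ fun c hc1 => ?_
    · refine eq_empty_of_forall_notMem fun c hc1 => ?_
      rw [mem_cut] at hc1
      have h3 := mem_unc.1 (hU.sub hc1.1)
      exact hc1.2 (hcl c h3.1 fun h => (mem_cut.1 (hsub h)).2 h3.2)
    · by_cases h : a ∈ P
      · exact ⟨a, mem_cut.2 ⟨hPK h, fun e => ha2 (e.1 ha1)⟩⟩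
      · exact ⟨a.swap, mem_cut.2 ⟨hPK (al_swap_mem hP haF h), fun e => ha2 (e.2 ha1)⟩⟩
    · rw [mem_cut] at hc1
      have h3 : c ∈ F := by_contra fun h => hc1.2 (hcl c (mem_out.1 hc1.1).1 h)
      by_contra h4
      exact (mem_out.1 hc1.1).2.2 (mem_out.1 (hPK (al_swap_mem hP h3 h4))).2.1
  · obtain ⟨l, hl1, hl2⟩ := ev_cn (out E S) U P hPK hco b p fun a ha => (hp a (hP.sub ha)).2
    refine ⟨fun a => if a ∈ P then l a else l a.swap, fun a ha => ?_, fun a ha => ?_⟩
    · by_cases hn : a ∈ P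
      · have h3 : a.swap ∉ P := (hP.one a ha).1 hn
        simp only [if_pos hn, if_neg h3, Prod.swap_swap, true_and]
        exact hl1 a hn
      · have h3 : a.swap ∈ P := al_swap_mem hP ha hn
        simp only [if_neg hn, if_pos h3, true_and]
        rw [← (hp a ha).1]
        exact hl1 _ h3
    · rw [al_ori_sum hF hP, al_ori_sum hF hP]
      by_cases hn : a ∈ U
      · exact hl2 a hn
      · exact (hl2 _ (al_swap_mem hU ha hn)).symm

end Pool.Agent.P.MP_0ad50f_co.EV
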