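import Pool.Agent.P.MP_0ad50f_co.D8.Main

/-! Even graphs: the two colours of one level. -/

namespace Pool.Agent.P.MP_0ad50f_co.EV

set_option linter.unusedSectionVars false

open Finset
open Pool.Agent.P.MP_0ad50f_co.D8

variable {V : Type} [Fintype V] [DecidableEq V]

/-- balanced signs with one designated good vertex in every component -/
theorem lv_bal {D : Finset (V × V)} (h : Sys D Prod.fst) (good pri : V → Prop) (ε : V → ℤ)
    (hε : ∀ v, ε v = 1 ∨ ε v = -1) (hg : ∀ a ∈ D, ∃ z, Reach D Prod.fst a.1 z ∧ good z)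
    (hp : ∀ x y, pri x → pri y → x = y) (hpg : ∀ x, pri x → good x) :
    ∃ f : V × V → ℤ, Sgn D f ∧ (∀ v, (-1 ≤ sm D f v ∧ sm D f v ≤ 1) ∨
      (good v ∧ sm D f v = 2 * ε v)) ∧ ∀ v, pri v → 0 ≤ ε v * sm D f v := by
  classical
  obtain ⟨rep0, hrep0, hcon0⟩ := rho_rep (nd := Prod.fst) h.sy
  have hex : ∀ x, ∃ y, Reach D Prod.fst x y ∧ (∀ z, Reach D Prod.fst x z → pri z → y = z) ∧
      ((∃ z, Reach D Prod.fst x z ∧ good z) → good y) := by
    intro x
    by_cases h1 : ∃ z, Reach D Prod.fst x z ∧ pri z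
    · obtain ⟨z, hz, hz'⟩ := h1
      exact ⟨z, hz, fun y _ hy => hp _ _ hz' hy, fun _ => hpg z hz'⟩
    · by_cases h2 : ∃ z, Reach D Prod.fst x z ∧ good z
      · obtain ⟨z, hz, hz'⟩ := h2
        exact ⟨z, hz, fun y hy hy' => absurd ⟨y, hy, hy'⟩ h1, fun _ => hz'⟩
      · exact ⟨x, Reach.refl _ _ _, fun y hy hy' => absurd ⟨y, hy, hy'⟩ h1, fun k => absurd k h2⟩
  choose sel hs1 hs2 hs3 using hex
  let rep : V → V := fun x => sel (rep0 x)
  have hrep : ∀ x, Reach D Prod.fst x (rep x) := fun x => (hrep0 x).trans (hs1 _)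
  have hcon : ∀ x y, Reach D Prod.fst x y → rep x = rep y := fun x y hxy => by
    simp only [rep, hcon0 x y hxy]
  have hpri : ∀ x, pri x → rep x = x := fun x hx => hs2 _ x ((hrep0 x).symm h.sy) hx
  let ty : V → Fin 4 := fun v =>
    if Odd (deg D v) then 1 else if good v ∧ rep v = v then 3 else 0
  have t1 : ∀ v, Odd (deg D v) → ty v = 1 := fun v hv => if_pos hv
  have t3 : ∀ v, ¬ Odd (deg D v) → (good v ∧ rep v = v) → ty v = 3 :=
    fun v hv hv' => (if_neg hv).trans (if_pos hv')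
  have t0 : ∀ v, ¬ Odd (deg D v) → ¬ (good v ∧ rep v = v) → ty v = 0 :=
    fun v hv hv' => (if_neg hv).trans (if_neg hv')
  have hpar : ∀ v, ty v = 1 ↔ Odd (deg D v) := by
    intro v
    refine ⟨fun e => ?_, t1 v⟩
    by_contra hv
    by_cases hv' : good v ∧ rep v = v
    · rw [t3 v hv hv'] at e; exact absurd e (by decide)
    · rw [t0 v hv hv'] at e; exact absurd e (by decide)
  have hroot : ∀ x, (0 < dg D Prod.fst x ∨ ty x = 2) →
      ∃ z, Reach D Prod.fst x z ∧ (ty z = 1 ∨ ty z = 3) := by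
    intro x hx
    have hx' : 0 < dg D Prod.fst x := by
      refine hx.resolve_right fun e => ?_
      simp only [ty] at e
      split_ifs at e <;> exact absurd e (by decide)
    obtain ⟨a, ha, rfl⟩ := dg_pos.1 hx'
    obtain ⟨z, hz, hz'⟩ := hg a ha
    refine ⟨rep a.1, hrep _, ?_⟩
    by_cases ho : Odd (deg D (rep a.1))
    · exact Or.inl (t1 _ ho)
    · exact Or.inr (t3 _ ho ⟨hs3 _ ⟨z, ((hrep0 _).symm h.sy).trans hz, hz'⟩,
        (hcon _ _ (hrep _)).symm⟩)
  obtain ⟨f, hf, hok⟩ := rho h ty hpar hroot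
  let s : V → ℤ := fun z => if ε z * sm D f z < 0 then -1 else 1
  have hs : ∀ z, s z = 1 ∨ s z = -1 := fun z => by
    by_cases e : ε z * sm D f z < 0
    · exact Or.inr (if_pos e)
    · exact Or.inl (if_neg e)
  have hs' : ∀ z, 0 ≤ ε z * (s z * sm D f z) := fun z => by
    by_cases e : ε z * sm D f z < 0
    · have e' : s z = -1 := if_pos e
      rw [e']; linarith
    · have e' : s z = 1 := if_neg e
      rw [e']; linarith
  have hsm : ∀ v, sm D (fun a => s (rep a.1) * f a) v = s (rep v) * sm D f v := by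
    intro v
    unfold sm sg
    rw [mul_sum]
    exact sum_congr rfl fun a ha => by rw [← (mem_filter.1 ha).2]
  refine ⟨fun a => s (rep a.1) * f a, fun a ha => ?_, fun v => ?_, fun v hv => ?_⟩
  · have e : rep a.swap.1 = rep a.1 := (hcon _ _ (Reach.dart Prod.fst ha)).symm
    obtain ⟨h1, h2⟩ := hf a ha
    refine ⟨by simp only [e, h1], ?_⟩
    rcases hs (rep a.1) with h3 | h3 <;> rcases h2 with h2 | h2 <;> simp only [h3, h2] <;> simp
  · rw [hsm]
    by_cases hv : Odd (deg D v)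
    · have h1 := (hok v).2.1 (t1 v hv)
      change sm D f v = 1 ∨ sm D f v = -1 at h1
      left
      rcases hs (rep v) with h3 | h3 <;> rcases h1 with h1 | h1 <;> rw [h3, h1] <;> simp
    · by_cases hx : good v ∧ rep v = v
      · have h1 := (hok v).2.2.2 (t3 v hv hx)
        change sm D f v = 0 ∨ sm D f v = 2 ∨ sm D f v = -2 at h1
        have h2 := hs' v
        rw [hx.2]
        rcases h1 with h1 | h1
        · left; rw [h1]; simp
        · refine Or.inr ⟨hx.1, ?_⟩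
          rcases hs v with h3 | h3 <;> rcases hε v with h4 | h4 <;> rcases h1 with h1 | h1 <;>
            rw [h3, h4, h1] at h2 ⊢ <;> omega
      · have h1 := (hok v).1 (t0 v hv hx)
        change sm D f v = 0 at h1
        left; rw [h1]; simp
  · rw [hsm, hpri v hv]
    exact hs' v

theorem lv_inj (W : Finset V) (N : V → Finset V) (h : ∀ w ∈ W, W.card ≤ (N w).card) :
    ∃ t : V → V, (∀ w ∈ W, t w ∈ N w) ∧ ∀ x ∈ W, ∀ y ∈ W, t x = t y → x = y := by
  induction W using Finset.induction_on with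
  | empty => exact ⟨id, by simp, by simp⟩
  | insert w W hw ih =>
    rw [card_insert_of_notMem hw] at h
    obtain ⟨t, h1, h2⟩ := ih fun x hx => by
      have := h x (mem_insert_of_mem hx)
      omega
    have h3 : (W.image t).card < (N w).card :=
      lt_of_le_of_lt card_image_le (h w (mem_insert_self _ _))
    obtain ⟨y, hy, hy'⟩ := exists_mem_notMem_of_card_lt_card h3
    have h4 : ∀ x ∈ W, Function.update t w y x = t x := fun x hx =>
      Function.update_of_ne (fun e : x = w => hw (e ▸ hx)) _ _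
    refine ⟨Function.update t w y, fun x hx => ?_, fun x hx z hz e => ?_⟩
    · rcases mem_insert.1 hx with rfl | hx
      · rwa [Function.update_self]
      · rw [h4 x hx]; exact h1 x hx
    · rcases mem_insert.1 hx with h5 | h5 <;> rcases mem_insert.1 hz with h6 | h6
      · rw [h5, h6]
      · rw [h5, Function.update_self, h4 z h6] at e
        exact absurd (e ▸ mem_image_of_mem t h6) hy'
      · rw [h6, Function.update_self, h4 x h5] at e
        exact absurd (e ▸ mem_image_of_mem t h5) hy'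
      · rw [h4 x h5, h4 z h6] at e
        exact h2 x h5 z h6 e

/-- darts without an end in `R` -/
def off (E : Finset (V × V)) (R : Finset V) : Finset (V × V) :=
  E.filter fun a => a.1 ∉ R ∧ a.2 ∉ R

/-- darts with an end in `R` -/
def att (E : Finset (V × V)) (R : Finset V) : Finset (V × V) :=
  E.filter fun a => a.1 ∈ R ∨ a.2 ∈ R

theorem mem_off {E : Finset (V × V)} {R : Finset V} {a : V × V} :
    a ∈ off E R ↔ a ∈ E ∧ a.1 ∉ R ∧ a.2 ∉ R := mem_filter

theorem mem_att {E : Finset (V × V)} {R : Finset V} {a : V × V} :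
    a ∈ att E R ↔ a ∈ E ∧ (a.1 ∈ R ∨ a.2 ∈ R) := mem_filter

theorem off_sys {E : Finset (V × V)} (hE : Sys E Prod.fst) (R : Finset V) :
    Sys (off E R) Prod.fst :=
  hE.mono (filter_subset _ _) fun a ha => by
    rw [mem_off] at ha ⊢
    exact ⟨hE.sy a ha.1, ha.2.2, ha.2.1⟩

theorem off_att (E : Finset (V × V)) (R : Finset V) (v : V) :
    deg (off E R) v + deg (att E R) v = deg E v := by
  have : off E R = E \ att E R := by
    ext a; simp only [mem_off, mem_sdiff, mem_att]; tauto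
  rw [this]
  exact dg_sdiff _ (filter_subset _ _) v

theorem deg_le_one {D : Finset (V × V)} {v : V}
    (h : ∀ x y, (v, x) ∈ D → (v, y) ∈ D → x = y) : deg D v ≤ 1 :=
  card_le_one.2 fun a ha b hb => by
    obtain ⟨a1, a2⟩ := a
    obtain ⟨b1, b2⟩ := b
    simp only [mem_filter] at ha hb
    obtain ⟨ha, rfl⟩ := ha
    obtain ⟨hb, rfl⟩ := hb
    rw [h _ _ ha hb]

theorem att_le {E : Finset (V × V)} {R : Finset V} (hR : ∀ x ∈ R, ∀ y ∈ R, x = y) {v : V}
    (hv : v ∉ R) : deg (att E R) v ≤ 1 :=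
  deg_le_one fun _ _ hx hy =>
    hR _ ((mem_att.1 hx).2.resolve_left hv) _ ((mem_att.1 hy).2.resolve_left hv)

theorem deg_zero {D : Finset (V × V)} {v : V} (h : ∀ x, (v, x) ∉ D) : deg D v = 0 := by
  by_contra h1
  obtain ⟨a, ha, rfl⟩ := dg_pos.1 (Nat.pos_of_ne_zero h1)
  exact h a.2 ha

theorem deg_pos {D : Finset (V × V)} {v x : V} (h : (v, x) ∈ D) : 0 < deg D v :=
  dg_pos.2 ⟨_, h, rfl⟩

theorem mem_of_tight {L E : Finset (V × V)} (h : L ⊆ E) {v x : V} (ht : deg L v = deg E v)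
    (hx : (v, x) ∈ E) : (v, x) ∈ L := by
  by_contra hn
  have h1 : deg (E \ L) v + deg L v = deg E v := dg_sdiff _ h v
  have h2 := deg_pos (mem_sdiff.2 ⟨hx, hn⟩)
  omega

theorem sm_const {D : Finset (V × V)} {f : V × V → ℤ} {c : ℤ} (h : ∀ a ∈ D, f a = c) (v : V) :
    sm D f v = c * deg D v := by
  rw [ma_congr (g := fun _ => c) h]
  simp [sm, sg, deg, dg, mul_comm]

theorem exists_other {D : Finset (V × V)} {v : V} (h : 2 ≤ deg D v) (y : V) :
    ∃ x, (v, x) ∈ D ∧ x ≠ y := by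
  obtain ⟨b, hb, h1, h2⟩ := in_second (R := D) (a := (v, y)) h
  obtain ⟨b1, b2⟩ := b
  obtain rfl : b1 = v := h1
  exact ⟨b2, hb, h2⟩

theorem level {E L : Finset (V × V)} {R A : Finset V} (hE : Sys E Prod.fst)
    (hev : ∀ v, deg E v % 2 = 0) (hR : ∀ x ∈ R, ∀ y ∈ R, x = y) (hL : L ⊆ E) (hLs : Sy L)
    (hcut : ∀ v, deg (unc (off E R) A) v ≤ deg (cut (off E R) A) v)
    (hT : ∀ v, v ∉ R → 0 < deg E v → deg L v = deg E v → v ∉ A)
    (hr : ∀ r ∈ R, 2 * deg L r = deg E r) (hmin : ∀ r ∈ R, ∀ a ∈ E, deg E r ≤ deg E a.1) :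
    ∃ f : V × V → ℤ, Sgn L f ∧ (∀ a ∈ L, a.1 ∈ R → f a = -1) ∧
      (∀ v, deg L v + sm L f v ≤ deg E v ∧ deg L v - sm L f v ≤ deg E v) ∧
      ∀ r ∈ R, ∀ w, (r, w) ∈ E \ L → deg E w = deg E r → 2 * deg L w = deg E w →
        0 < deg L w + sm L f w := by
  classical
  have hnR : ∀ r ∈ R, ∀ w, (r, w) ∈ E → w ∉ R := fun r hr w h hw => hE.nl _ h (hR _ hw _ hr)
  have hcu : ∀ v, deg (cut (off E R) A) v + deg (unc (off E R) A) v = deg (off E R) v :=
    fun v => dg_cut_unc _ A _ v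
  let Wt : Finset V := univ.filter fun w => (∃ r ∈ R, (w, r) ∈ L) ∧ deg L w = deg E w
  have hWt : ∀ w, w ∈ Wt ↔ (∃ r ∈ R, (w, r) ∈ L) ∧ deg L w = deg E w := fun w => by simp [Wt]
  have hWR : ∀ w ∈ Wt, w ∉ R := fun w hw => by
    obtain ⟨⟨r, h1, h2⟩, -⟩ := (hWt w).1 hw
    exact hnR r h1 w (hE.sy _ (hL h2))
  have hWA : ∀ w ∈ Wt, w ∉ A := fun w hw => by
    obtain ⟨⟨r, -, h2⟩, h3⟩ := (hWt w).1 hw
    exact hT w (hWR w hw) (deg_pos (hL h2)) h3
  obtain ⟨t, ht1, ht2⟩ := lv_inj Wt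
    (fun w => univ.filter fun x => (w, x) ∈ cut (off E R) A) fun w hw => by
      obtain ⟨⟨r, h1, h2⟩, -⟩ := (hWt w).1 hw
      have h3 : Wt.card ≤ deg L r := by
        refine card_le_card_of_injOn (fun x => (r, x)) (fun x hx => ?_)
          fun x _ y _ e => (Prod.mk.inj e).2
        obtain ⟨⟨r', h4, h5⟩, -⟩ := (hWt x).1 hx
        obtain rfl := hR _ h4 _ h1
        exact mem_coe.2 (mem_filter.2 ⟨hLs _ h5, rfl⟩)
      have h4 : deg (cut (off E R) A) w ≤
          (univ.filter fun x => (w, x) ∈ cut (off E R) A).card := by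
        refine card_le_card_of_injOn Prod.snd (fun a ha => ?_) fun a ha b hb e => ?_
        · obtain ⟨h5, h6⟩ := mem_filter.1 (mem_coe.1 ha)
          exact mem_coe.2 (mem_filter.2 ⟨mem_univ _, by rw [← h6]; exact h5⟩)
        · exact Prod.ext ((mem_filter.1 (mem_coe.1 ha)).2.trans
            (mem_filter.1 (mem_coe.1 hb)).2.symm) e
      have h5 := hcu w
      have h6 := hcut w
      have h7 := off_att E R w
      have h8 := att_le (E := E) hR (hWR w hw)
      have h9 := hr r h1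
      have h10 : deg E r ≤ deg E w := hmin r h1 _ (hL h2)
      have h11 := hev w
      omega
  have ht : ∀ w ∈ Wt, (w, t w) ∈ L ∧ t w ∉ R ∧ t w ∈ A := fun w hw => by
    have h1 := mem_cut.1 (mem_filter.1 (ht1 w hw)).2
    have h2 := mem_off.1 h1.1
    exact ⟨mem_of_tight hL ((hWt w).1 hw).2 h2.1, h2.2.2,
      by_contra fun h => h1.2 ⟨fun e => absurd e (hWA w hw), fun e => absurd e h⟩⟩
  let P : Finset (V × V) := L.filter fun a => (a.1 ∈ Wt ∧ a.2 = t a.1) ∨ (a.2 ∈ Wt ∧ a.1 = t a.2)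
  have hP : ∀ a, a ∈ P ↔ a ∈ L ∧ ((a.1 ∈ Wt ∧ a.2 = t a.1) ∨ (a.2 ∈ Wt ∧ a.1 = t a.2)) :=
    fun a => mem_filter
  have hPR : ∀ a ∈ P, a.1 ∉ R ∧ a.2 ∉ R := fun a ha => by
    rcases ((hP a).1 ha).2 with ⟨h1, h2⟩ | ⟨h1, h2⟩
    · exact ⟨hWR _ h1, h2 ▸ (ht _ h1).2.1⟩
    · exact ⟨h2 ▸ (ht _ h1).2.1, hWR _ h1⟩
  have hPs : Sy P := fun a ha => (hP _).2 ⟨hLs a ((hP a).1 ha).1, ((hP a).1 ha).2.symm⟩
  have hZs : Sy (att L R) := fun a ha => mem_att.2 ⟨hLs a (mem_att.1 ha).1, (mem_att.1 ha).2.symm⟩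
  have hPo : P ⊆ L \ att L R := fun a ha => mem_sdiff.2 ⟨((hP a).1 ha).1, fun h =>
    (mem_att.1 h).2.elim (hPR a ha).1 (hPR a ha).2⟩
  have hP1 : ∀ v, deg P v ≤ 1 := fun v => deg_le_one fun x y hx hy => by
    rcases ((hP _).1 hx).2 with ⟨h1, h2⟩ | ⟨h1, h2⟩ <;>
      rcases ((hP _).1 hy).2 with ⟨h3, h4⟩ | ⟨h3, h4⟩
    · exact h2.trans h4.symm
    · exact absurd (h4 ▸ (ht _ h3).2.2) (hWA _ h1)
    · exact absurd (h2 ▸ (ht _ h1).2.2) (hWA _ h3)
    · exact ht2 _ h1 _ h3 (h2.symm.trans h4)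
  have hPW : ∀ w ∈ Wt, 0 < deg P w := fun w hw =>
    deg_pos ((hP (w, t w)).2 ⟨(ht w hw).1, Or.inl ⟨hw, rfl⟩⟩)
  have hP0 : ∀ v, v ∉ Wt → v ∉ A → deg P v = 0 := fun v h1 h2 => deg_zero fun x hx => by
    rcases ((hP _).1 hx).2 with ⟨h3, -⟩ | ⟨h3, h4⟩
    · exact h1 h3
    · exact h2 (by have := (ht _ h3).2.2; rwa [← h4] at this)
  let D : Finset (V × V) := (L \ att L R) \ P
  have hD : Sys D Prod.fst :=
    hE.mono (sdiff_subset.trans (sdiff_subset.trans hL)) ((hLs.sdiff hZs).sdiff hPs)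
  have hdeg : ∀ v, deg D v + deg P v + deg (att L R) v = deg L v := fun v => by
    have h1 : deg D v + deg P v = deg (L \ att L R) v := dg_sdiff _ hPo v
    have h2 : deg (L \ att L R) v + deg (att L R) v = deg L v :=
      dg_sdiff _ (filter_subset _ _) v
    omega
  have hle : ∀ v, deg L v ≤ deg E v := fun v => dg_mono _ hL v
  obtain ⟨g, hg, hg1, hg2⟩ := lv_bal hD (fun v => v ∉ R ∧ deg L v < deg E v)
    (fun w => ∃ r ∈ R, (r, w) ∈ E \ L ∧ deg E r = 2) (fun v => if deg P v = 0 then 1 else -1)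
    (fun v => by split_ifs <;> simp) (fun a ha => by
      obtain ⟨h1, h2⟩ := mem_sdiff.1 ha
      obtain ⟨h3, h4⟩ := mem_sdiff.1 h1
      have h5 : a.1 ∉ R := fun h => h4 (mem_att.2 ⟨h3, Or.inl h⟩)
      have h6 : a.2 ∉ R := fun h => h4 (mem_att.2 ⟨h3, Or.inr h⟩)
      by_cases h7 : deg L a.1 < deg E a.1
      · exact ⟨a.1, Reach.refl _ _ _, h5, h7⟩
      have h8 : deg L a.1 = deg E a.1 := le_antisymm (hle _) (not_lt.1 h7)
      have h9 : a.1 ∉ A := hT _ h5 (deg_pos (hL h3)) h8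
      have k1 := hcu a.1
      have k2 := hcut a.1
      obtain ⟨y, hy, hy'⟩ : ∃ y, (a.1, y) ∈ cut (off E R) A ∧ (a.1 ∈ Wt → y ≠ t a.1) := by
        by_cases hw : a.1 ∈ Wt
        · have k3 := hdeg a.1
          have k4 := hPW _ hw
          have k5 : 0 < deg D a.1 := deg_pos ha
          have k6 := off_att E R a.1
          have k7 := att_le (E := E) hR h5
          have k8 : 0 < deg (att L R) a.1 := by
            obtain ⟨⟨r, m1, m2⟩, -⟩ := (hWt _).1 hw
            exact deg_pos (mem_att.2 ⟨m2, Or.inr m1⟩)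
          have k9 := hev a.1
          obtain ⟨y, m1, m2⟩ := exists_other (D := cut (off E R) A) (v := a.1) (by omega) (t a.1)
          exact ⟨y, m1, fun _ => m2⟩
        · have k3 : 0 < deg (off E R) a.1 := deg_pos (mem_off.2 ⟨hL h3, h5, h6⟩)
          obtain ⟨c, m1, m2⟩ := (dg_pos (D := cut (off E R) A) (nd := Prod.fst) (x := a.1)).1
            (by change 0 < deg _ _; omega)
          exact ⟨c.2, by rw [← m2]; exact m1, fun h => absurd h hw⟩
      obtain ⟨m1, m2⟩ := mem_cut.1 hy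
      obtain ⟨m3, -, m4⟩ := mem_off.1 m1
      have m5 : y ∈ A := by_contra fun h => m2 ⟨fun e => absurd e h9, fun e => absurd e h⟩
      have m6 : (a.1, y) ∈ D := by
        refine mem_sdiff.2 ⟨mem_sdiff.2 ⟨mem_of_tight hL h8 m3, fun h =>
          (mem_att.1 h).2.elim h5 m4⟩, fun h => ?_⟩
        rcases ((hP _).1 h).2 with ⟨n1, n2⟩ | ⟨n1, -⟩
        · exact hy' n1 n2
        · exact hWA _ n1 m5
      refine ⟨y, Reach.dart Prod.fst m6, m4, lt_of_le_of_ne (hle y) fun e => ?_⟩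
      exact hT y m4 (deg_pos (hE.sy _ m3)) e m5)
    (fun x y ⟨r, h1, h2, h3⟩ ⟨r', h4, h5, _⟩ => by
      obtain rfl := hR _ h4 _ h1
      have k1 : deg (E \ L) r' + deg L r' = deg E r' := dg_sdiff _ hL r'
      have k2 := hr r' h1
      exact (Prod.mk.inj (in_only (R := E \ L) (a := (r', y)) (by change deg _ r' ≤ 1; omega)
        h5 h2 rfl)).2)
    (fun w ⟨r, h1, h2, _⟩ => by
      obtain ⟨h3, h4⟩ := mem_sdiff.1 h2
      refine ⟨hnR r h1 w h3, lt_of_le_of_ne (hle w) fun e => h4 ?_⟩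
      exact hLs _ (mem_of_tight hL e (hE.sy _ h3)))
  let f : V × V → ℤ := fun a => if a ∈ att L R then -1 else if a ∈ P then 1 else g a
  have hsum : ∀ v, sm L f v = sm D g v + deg P v - deg (att L R) v := fun v => by
    rw [ma_split (M := att L R) (filter_subset _ _), ma_split hPo,
      sm_const (D := att L R) (c := -1) fun a ha => if_pos ha,
      sm_const (D := P) (c := 1) fun a ha =>
        (if_neg (mem_sdiff.1 (hPo ha)).2).trans (if_pos ha),
      ma_congr (g := g) fun a ha =>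
        (if_neg (mem_sdiff.1 (mem_sdiff.1 ha).1).2).trans (if_neg (mem_sdiff.1 ha).2)]
    ring
  have hc1 := fun v => ma_cls hg (r := 1) (Or.inl rfl) v
  have hc2 := fun v => ma_cls hg (r := -1) (Or.inr rfl) v
  refine ⟨f, fun a ha => ?_, fun a ha h => if_pos (mem_att.2 ⟨ha, Or.inl h⟩), fun v => ?_,
    fun r h1 w h2 h3 h4 => ?_⟩
  · by_cases h1 : a ∈ att L R
    · simp only [f, if_pos h1, if_pos (hZs a h1)]
      simp
    · have h1' : a.swap ∉ att L R := fun e => h1 (by simpa using hZs _ e)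
      by_cases h2 : a ∈ P
      · simp only [f, if_neg h1, if_neg h1', if_pos h2, if_pos (hPs a h2)]
        simp
      · have h2' : a.swap ∉ P := fun e => h2 (by simpa using hPs _ e)
        simp only [f, if_neg h1, if_neg h1', if_neg h2, if_neg h2']
        exact hg a (mem_sdiff.2 ⟨mem_sdiff.2 ⟨ha, h1⟩, h2⟩)
  · rw [hsum]
    have k1 := hdeg v
    have k2 := hc1 v
    have k3 := hc2 v
    have k4 := hev v
    have k5 := hle v
    have k6 := hP1 v
    by_cases hv : v ∈ R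
    · have k7 : deg L v ≤ deg (att L R) v := card_le_card fun a ha => by
        rw [mem_filter] at ha ⊢
        exact ⟨mem_att.2 ⟨ha.1, Or.inl (ha.2 ▸ hv)⟩, ha.2⟩
      have k8 := hr v hv
      omega
    · have k7 := att_le (E := L) hR hv
      by_cases h7 : deg L v < deg E v
      · rcases hg1 v with k8 | ⟨-, k8⟩
        · omega
        · split_ifs at k8 <;> omega
      · have k8 := (hg1 v).resolve_right fun h => h7 h.1.2
        by_cases hw : v ∈ Wt
        · have k9 := hPW v hw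
          have k10 : 0 < deg (att L R) v := by
            obtain ⟨⟨r, m1, m2⟩, -⟩ := (hWt _).1 hw
            exact deg_pos (mem_att.2 ⟨m2, Or.inr m1⟩)
          omega
        · have k9 : deg (att L R) v = 0 := deg_zero fun x hx => hw ((hWt v).2
            ⟨⟨x, (mem_att.1 hx).2.resolve_left hv, (mem_att.1 hx).1⟩, by omega⟩)
          by_cases h0 : deg E v = 0
          · omega
          · have k10 := hP0 v hw (hT v hv (by omega) (by omega))
            omega
  · rw [hsum]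
    obtain ⟨h5, h6⟩ := mem_sdiff.1 h2
    have hw := hnR r h1 w h5
    have k1 := hdeg w
    have k2 := hc1 w
    have k3 : deg (att L R) w = 0 := deg_zero fun x hx => by
      obtain rfl := hR _ ((mem_att.1 hx).2.resolve_left hw) _ h1
      exact h6 (hLs _ (mem_att.1 hx).1)
    have k4 : 0 < deg E r := deg_pos h5
    by_cases h0 : deg P w = 0
    · by_cases h7 : deg E r = 2
      · have k5 := hg2 w ⟨r, h1, h2, h7⟩
        simp only [if_pos h0] at k5
        omega
      · rcases hg1 w with k5 | ⟨-, k5⟩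
        · omega
        · simp only [if_pos h0] at k5
          omega
    · omega

end Pool.Agent.P.MP_0ad50f_co.EV
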