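import Pool.Agent.P.MP_0ad50f_co.EV.Alg
import Pool.Agent.P.MP_0ad50f_co.EV.Level

/-! Even graphs: the edges of odd colour. -/

namespace Pool.Agent.P.MP_0ad50f_co.EV

set_option linter.unusedSectionVars false

open Finset
open Pool.Agent.P.MP_0ad50f_co.D8

variable {V : Type} [Fintype V] [DecidableEq V]

theorem reach_of_steps {D H : Finset (V × V)} (h : ∀ a ∈ D, Reach H Prod.fst a.1 a.2) {x y : V}
    (hxy : Reach D Prod.fst x y) : Reach H Prod.fst x y := by
  induction hxy with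
  | refl => exact Reach.refl _ _ _
  | tail _ hs ih =>
    obtain ⟨a, ha, rfl, rfl⟩ := hs
    exact ih.trans (h a ha)

theorem jn_first {D : Finset (V × V)} {r x : V} (h : Reach D Prod.fst x r) (hx : x ≠ r) :
    ∃ w, (w, r) ∈ D ∧ Reach (off D {r}) Prod.fst x w := by
  induction h using Relation.ReflTransGen.head_induction_on with
  | refl => exact absurd rfl hx
  | head hs _ ih =>
    obtain ⟨⟨a1, a2⟩, ha, rfl, rfl⟩ := hs
    by_cases e : a2 = r
    · subst e
      exact ⟨a1, ha, Reach.refl _ _ _⟩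
    · obtain ⟨w, h1, h2⟩ := ih e
      exact ⟨w, h1, (Reach.dart Prod.fst (a := (a1, a2))
        (mem_off.2 ⟨ha, by simpa using hx, by simpa using e⟩)).trans h2⟩

theorem jn_partner {E : Finset (V × V)} (hE : Sys E Prod.fst) (hev : ∀ v, deg E v % 2 = 0)
    {r w : V} (h : (r, w) ∈ E) :
    ∃ w', w' ≠ w ∧ (r, w') ∈ E ∧ Reach (off E {r}) Prod.fst w w' := by
  have h1 := bridge hE h fun ⟨z, _, hz⟩ => by
    have := hev z
    rw [Nat.odd_iff] at hz
    change deg E z % 2 = 1 at hz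
    omega
  obtain ⟨w', h2, h3⟩ := jn_first h1 (hE.nl _ h)
  rw [mem_del] at h2
  exact ⟨w', fun e => h2.2.2 (by rw [e]; rfl), hE.sy _ h2.1,
    h3.mono (filter_subset_filter _ (del_subset _ _))⟩

theorem jn_pair {E Q : Finset (V × V)} (hE : Sys E Prod.fst) (hev : ∀ v, deg E v % 2 = 0)
    (hQ : Q ⊆ E) {r : V} (h : deg E r < 2 * deg Q r) :
    ∃ w w', w ≠ w' ∧ (r, w) ∈ Q ∧ (r, w') ∈ Q ∧ Reach (off E {r}) Prod.fst w w' := by
  by_contra hn
  have hno : ∀ w w', (r, w) ∈ Q → (r, w') ∈ Q → Reach (off E {r}) Prod.fst w w' → w = w' :=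
    fun w w' h1 h2 h3 => by_contra fun e => hn ⟨w, w', e, h1, h2, h3⟩
  choose! φ h1 h2 h3 using fun w (h : (r, w) ∈ E) => jn_partner hE hev h
  have key : ∀ a ∈ Q.filter fun a => a.1 = r, (r, a.2) ∈ Q := fun a ha => by
    obtain ⟨k1, k2⟩ := mem_filter.1 ha
    rw [← k2]; exact k1
  have h4 : deg Q r ≤ deg (E \ Q) r := by
    refine card_le_card_of_injOn (fun a => (r, φ a.2)) (fun a ha => ?_) fun a ha b hb e => ?_
    · have k := key a ha
      exact mem_coe.2 (mem_filter.2 ⟨mem_sdiff.2 ⟨h2 _ (hQ k), fun m =>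
        h1 _ (hQ k) (hno _ _ k m (h3 _ (hQ k))).symm⟩, rfl⟩)
    · have k := key a ha
      have k' := key b hb
      have e' : φ a.2 = φ b.2 := (Prod.mk.inj e).2
      refine Prod.ext ((mem_filter.1 (mem_coe.1 ha)).2.trans
        (mem_filter.1 (mem_coe.1 hb)).2.symm) (hno _ _ k k' ((h3 _ (hQ k)).trans ?_))
      rw [e']
      exact (h3 _ (hQ k')).symm (off_sys hE _).sy
  have h5 : deg (E \ Q) r + deg Q r = deg E r := dg_sdiff _ hQ r
  omega

theorem jn_symm (J C : Finset (V × V)) (v : V) :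
    deg (symmDiff J C) v + 2 * deg (J ∩ C) v = deg J v + deg C v := by
  have h1 : deg (J \ (J ∩ C)) v + deg (J ∩ C) v = deg J v := dg_sdiff _ inter_subset_left v
  have h2 : deg (C \ (J ∩ C)) v + deg (J ∩ C) v = deg C v := dg_sdiff _ inter_subset_right v
  have h3 : deg (symmDiff J C \ (J \ (J ∩ C))) v + deg (J \ (J ∩ C)) v = deg (symmDiff J C) v :=
    dg_sdiff _ (fun a ha => by
      simp only [mem_sdiff, mem_inter, mem_symmDiff] at ha ⊢
      tauto) v
  have h4 : symmDiff J C \ (J \ (J ∩ C)) = C \ (J ∩ C) := by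
    ext a
    simp only [mem_sdiff, mem_inter, mem_symmDiff]
    tauto
  rw [h4] at h3
  omega

theorem jn_cycle {E H : Finset (V × V)} (hE : Sys E Prod.fst) {r w w' : V} (hH : H ⊆ off E {r})
    (hs : Sy H) (hw : (r, w) ∈ E) (hw' : (r, w') ∈ E) (hne : w ≠ w')
    (h : Reach H Prod.fst w w') :
    ∃ C : Finset (V × V), Sy C ∧ (∀ v, deg C v % 2 = 0) ∧ deg C r = 2 ∧
      (∀ x, (r, x) ∈ C ↔ x = w ∨ x = w') ∧
      ∀ a ∈ C, a ∈ H ∨ a = (r, w) ∨ a = (w, r) ∨ a = (r, w') ∨ a = (w', r) := by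
  obtain ⟨J, h1, h2, h3⟩ := in_join hs (in_reach hs h)
  have hJ : ∀ a ∈ J, a.1 ≠ r ∧ a.2 ≠ r := fun a ha => by
    simpa using (mem_off.1 (hH (h1 ha))).2
  have n1 : w ≠ r := hE.nl _ hw
  have n2 : w' ≠ r := hE.nl _ hw'
  have d1 := fun v => dg_add (D := J) Prod.fst (a := (r, w)) (fun k => (hJ _ k).1 rfl)
    (fun k => (hJ _ k).2 rfl) (hE.ne_swap hw) v
  have d2 := fun v => dg_add (D := add J (r, w)) Prod.fst (a := (r, w'))
    (fun k => by
      rcases D8.mem_add.1 k with k | k | k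
      · exact hne (Prod.mk.inj k).2.symm
      · exact n2 (Prod.mk.inj k).2
      · exact (hJ _ k).1 rfl)
    (fun k => by
      rcases D8.mem_add.1 k with k | k | k
      · exact n2 (Prod.mk.inj k).1
      · exact hne (Prod.mk.inj k).1.symm
      · exact (hJ _ k).2 rfl) (hE.ne_swap hw') v
  have d3 : ∀ v, deg J v % 2 = ((if w = v then 1 else 0) + if w' = v then 1 else 0) % 2 := by
    intro v
    rw [← ZMod.natCast_eq_natCast_iff', h3]
    simp [Pi.single_apply, eq_comm]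
  refine ⟨add (add J (r, w)) (r, w'), (h2.add _).add _, fun v => ?_, ?_, fun x => ?_,
    fun a ha => ?_⟩
  · have k1 := d1 v
    have k2 := d2 v
    have k3 := d3 v
    simp only [Prod.swap_prod_mk, deg] at k1 k2 k3 ⊢
    omega
  · have k1 := d1 r
    have k2 := d2 r
    have k3 : deg J r = 0 := deg_zero fun x k => (hJ _ k).1 rfl
    simp only [Prod.swap_prod_mk, deg, if_neg n1, if_neg n2, if_true] at k1 k2 k3 ⊢
    omega
  · have k : (r, x) ∉ J := fun k => (hJ _ k).1 rfl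
    simp only [D8.mem_add, Prod.swap_prod_mk, Prod.mk.injEq, true_and, k, n1.symm, n2.symm,
      false_and, false_or, or_false]
    exact or_comm
  · simp only [D8.mem_add, Prod.swap_prod_mk] at ha
    have := @h1 a
    tauto

theorem jn_par {H : Finset (V × V)} (hH : Sy H) (W : Finset V)
    (hW : ∀ x ∈ W, ∀ y ∈ W, Reach H Prod.fst x y) (z : V → ZMod 2) (h0 : ∀ v, v ∉ W → z v = 0)
    (hs : ∑ v, z v = 0) : in_Par H z := by
  rcases W.eq_empty_or_nonempty with rfl | ⟨x, hx⟩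
  · rw [show z = 0 from funext fun v => h0 v (notMem_empty v)]
    exact in_zero H
  have key : ∀ T : Finset V, in_Par H (∑ y ∈ T, z y • (Pi.single y 1 + Pi.single x 1)) := by
    intro T
    induction T using Finset.induction_on with
    | empty => rw [sum_empty]; exact in_zero H
    | insert y T hy ih =>
      rw [sum_insert hy]
      refine in_add ?_ ih
      by_cases h : y ∈ W
      · exact in_smul _ (in_reach hH (hW y h x hx))
      · rw [h0 y h, zero_smul]; exact in_zero H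
  have e : z = ∑ y, z y • (Pi.single y 1 + Pi.single x 1) := by
    simp only [smul_add, sum_add_distrib, ← sum_smul, hs, zero_smul, add_zero]
    funext v
    simp [Finset.sum_apply, Pi.single_apply]
  rw [e]
  exact key univ

theorem jn_root {E F : Finset (V × V)} (hE : Sys E Prod.fst) (hev : ∀ v, deg E v % 2 = 0) {r : V}
    (hF : F ⊆ off E {r}) (hFs : Sy F)
    (hcon : ∀ a ∈ off E {r}, Reach (off E {r} \ F) Prod.fst a.1 a.2) {J0 : Finset (V × V)}
    (h1 : J0 ⊆ E \ F) (h2 : Sy J0) (h3 : deg J0 r % 2 = deg E r / 2 % 2) :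
    ∃ J ⊆ E \ F, Sy J ∧ (∀ v, deg J v % 2 = deg J0 v % 2) ∧ 2 * deg J r = deg E r := by
  classical
  obtain ⟨J, hJ, hmin⟩ := exists_min_image
    ((E \ F).powerset.filter fun J => Sy J ∧ ∀ v, deg J v % 2 = deg J0 v % 2)
    (fun J => ((2 * deg J r : ℤ) - deg E r).natAbs)
    ⟨J0, mem_filter.2 ⟨mem_powerset.2 h1, h2, fun _ => rfl⟩⟩
  obtain ⟨k1, k2, k3⟩ := mem_filter.1 hJ
  rw [mem_powerset] at k1
  refine ⟨J, k1, k2, k3, by_contra fun hn => ?_⟩
  have hJE : J ⊆ E := k1.trans sdiff_subset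
  have hrF : ∀ a ∈ F, a.1 ≠ r ∧ a.2 ≠ r := fun a ha => by simpa using (mem_off.1 (hF ha)).2
  have step : ∀ w w', w ≠ w' → (r, w) ∈ E → (r, w') ∈ E → Reach (off E {r}) Prod.fst w w' →
      ∃ C : Finset (V × V), deg C r = 2 ∧ (∀ x, (r, x) ∈ C ↔ x = w ∨ x = w') ∧
        ((2 * deg J r : ℤ) - deg E r).natAbs ≤
          ((2 * deg (symmDiff J C) r : ℤ) - deg E r).natAbs := by
    intro w w' hne hw hw' hr
    obtain ⟨C, c1, c2, c3, c4, c5⟩ := jn_cycle hE sdiff_subset ((off_sys hE _).sy.sdiff hFs)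
      hw hw' hne (reach_of_steps hcon hr)
    refine ⟨C, c3, c4, hmin _ (mem_filter.2 ⟨mem_powerset.2 fun a ha => ?_, fun a ha => ?_,
      fun v => ?_⟩)⟩
    · rcases mem_symmDiff.1 ha with ⟨m, -⟩ | ⟨m, -⟩
      · exact k1 m
      · rcases c5 a m with m | rfl | rfl | rfl | rfl
        · exact sdiff_subset_sdiff (filter_subset _ _) Subset.rfl m
        · exact mem_sdiff.2 ⟨hw, fun k => (hrF _ k).1 rfl⟩
        · exact mem_sdiff.2 ⟨hE.sy _ hw, fun k => (hrF _ k).2 rfl⟩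
        · exact mem_sdiff.2 ⟨hw', fun k => (hrF _ k).1 rfl⟩
        · exact mem_sdiff.2 ⟨hE.sy _ hw', fun k => (hrF _ k).2 rfl⟩
    · rw [mem_symmDiff] at ha ⊢
      rcases ha with ⟨m, m'⟩ | ⟨m, m'⟩
      · exact Or.inl ⟨k2 a m, fun k => m' (by simpa using c1 _ k)⟩
      · exact Or.inr ⟨c1 a m, fun k => m' (by simpa using k2 _ k)⟩
    · have := jn_symm J C v
      have := c2 v
      have := k3 v
      omega
  have p1 := k3 r
  have p2 := hev r
  rcases lt_or_gt_of_ne hn with hlt | hgt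
  · have p3 : deg (E \ J) r + deg J r = deg E r := dg_sdiff _ hJE r
    obtain ⟨w, w', m1, m2, m3, m4⟩ := jn_pair hE hev (Q := E \ J) sdiff_subset (r := r) (by omega)
    obtain ⟨C, c1, c2, c3⟩ := step w w' m1 (mem_sdiff.1 m2).1 (mem_sdiff.1 m3).1 m4
    have p4 := jn_symm J C r
    have p5 : deg (J ∩ C) r = 0 := deg_zero fun x hx => by
      obtain ⟨n1, n2⟩ := mem_inter.1 hx
      rcases (c2 x).1 n2 with rfl | rfl
      · exact (mem_sdiff.1 m2).2 n1
      · exact (mem_sdiff.1 m3).2 n1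
    omega
  · obtain ⟨w, w', m1, m2, m3, m4⟩ := jn_pair hE hev hJE (r := r) hgt
    obtain ⟨C, c1, c2, c3⟩ := step w w' m1 (hJE m2) (hJE m3) m4
    have p4 := jn_symm J C r
    have p5 : deg C r ≤ deg (J ∩ C) r := card_le_card fun a ha => by
      obtain ⟨a1, a2⟩ := a
      obtain ⟨n1, n2⟩ := mem_filter.1 ha
      obtain rfl : a1 = r := n2
      refine mem_filter.2 ⟨mem_inter.2 ⟨?_, n1⟩, rfl⟩
      rcases (c2 a2).1 n1 with rfl | rfl
      · exact m2
      · exact m3
    have p6 : deg (J ∩ C) r ≤ deg C r := dg_mono _ inter_subset_right r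
    omega

theorem sum_deg (D : Finset (V × V)) : ∑ v, deg D v = D.card :=
  (card_eq_sum_card_fiberwise (f := Prod.fst) (t := univ) fun _ _ => mem_coe.2 (mem_univ _)).symm

/-- root, cut, variable edges and edges of odd colour of a connected even graph -/
theorem join {E : Finset (V × V)} (hE : Sys E Prod.fst) (hev : ∀ v, deg E v % 2 = 0)
    (hcon : ∀ a ∈ E, ∀ b ∈ E, Reach E Prod.fst a.1 b.1) :
    ∃ (R A : Finset V) (F O : Finset (V × V)), (∀ x ∈ R, ∀ y ∈ R, x = y) ∧ Var (off E R) A F ∧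
      F ⊆ O ∧ O ⊆ E ∧ Sy O ∧ (∀ v, v ∉ R → 0 < deg E v → (deg O v % 2 = 1 ↔ v ∈ A)) ∧
      (∀ r ∈ R, 2 * deg O r = deg E r) ∧ ∀ r ∈ R, ∀ a ∈ E, deg E r ≤ deg E a.1 := by
  classical
  let W : Finset V := univ.filter fun v => 0 < deg E v
  have hW : ∀ v, v ∈ W ↔ 0 < deg E v := fun v => by simp [W]
  obtain ⟨R, hR0, hRW, hodd, hmin⟩ : ∃ R : Finset V, (R = ∅ ∨ ∃ r, R = {r}) ∧ R ⊆ W ∧
      ((W \ R).card % 2 = 1 ∨ W = ∅) ∧ ∀ r ∈ R, ∀ a ∈ E, deg E r ≤ deg E a.1 := by
    by_cases h : W.card % 2 = 1 ∨ W = ∅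
    · exact ⟨∅, Or.inl rfl, empty_subset _, by rwa [sdiff_empty], by simp⟩
    · rw [not_or] at h
      obtain ⟨r, h1, h2⟩ := exists_min_image W (deg E) (nonempty_iff_ne_empty.2 h.2)
      refine ⟨{r}, Or.inr ⟨r, rfl⟩, singleton_subset_iff.2 h1, Or.inl ?_, fun x hx a ha => ?_⟩
      · have h3 := card_erase_add_one h1
        rw [sdiff_singleton_eq_erase]
        omega
      · rw [mem_singleton.1 hx]
        exact h2 _ ((hW _).2 (deg_pos (x := a.2) ha))
  have hR : ∀ x ∈ R, ∀ y ∈ R, x = y := by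
    rcases hR0 with rfl | ⟨r, rfl⟩ <;> simp
  obtain ⟨A, F, hV, hA⟩ : ∃ A F, Var (off E R) A F ∧
      ((W \ R).filter fun v => v ∈ A).card % 2 = (∑ r ∈ R, deg E r / 2) % 2 := by
    obtain ⟨S, F, hV⟩ := ev_algebra (off_sys hE R)
    have h1 := card_filter_add_card_filter_not (s := W \ R) fun v => v ∈ S
    by_cases h : ((W \ R).filter fun v => v ∈ S).card % 2 = (∑ r ∈ R, deg E r / 2) % 2
    · exact ⟨S, F, hV, h⟩
    · refine ⟨Sᶜ, F, hV.compl, ?_⟩
      simp only [mem_compl]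
      rcases hodd with h2 | h2
      · omega
      · rw [h2, subset_empty] at hRW
        simp [h2, hRW] at h
  have hFo : F ⊆ off E R := hV.sub.trans (filter_subset _ _)
  have hFE : F ⊆ E := hFo.trans (filter_subset _ _)
  have hH : Sy (E \ F) := hE.sy.sdiff hV.sy
  have hF0 : ∀ r ∈ R, deg F r = 0 := fun r hr => deg_zero fun x hx => (mem_off.1 (hFo hx)).2.1 hr
  let z : V → ℕ := fun v => (if v ∈ (W \ R).filter (fun v => v ∈ A) then 1 else 0) + deg F v +
    if v ∈ R then deg E v / 2 else 0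
  obtain ⟨J0, j1, j2, j3⟩ := in_join hH (jn_par hH W (fun x hx y hy => by
      obtain ⟨a, ha, rfl⟩ := dg_pos.1 ((hW x).1 hx)
      obtain ⟨b, hb, rfl⟩ := dg_pos.1 ((hW y).1 hy)
      refine reach_of_steps (fun c hc => ?_) (hcon a ha b hb)
      by_cases h : c ∈ F
      · exact (hV.con c (hFo h)).mono (sdiff_subset_sdiff (filter_subset _ _) Subset.rfl)
      · exact Reach.dart Prod.fst (mem_sdiff.2 ⟨hc, h⟩))
    (fun v => (z v : ZMod 2)) (fun v hv => by
      have h1 : deg F v ≤ deg E v := dg_mono _ hFE v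
      have h2 : ¬ 0 < deg E v := fun h => hv ((hW v).2 h)
      have h3 : deg F v = 0 := by omega
      have h4 : v ∉ R := fun h => hv (hRW h)
      simp [z, hv, h3, h4]) (by
      rw [← Nat.cast_sum, in_even]
      have h1 := in_even.1 (rho_card_even hV.sy fun a ha => hE.ne_swap (hFE ha))
      simp only [z, sum_add_distrib, sum_deg, sum_ite_mem, univ_inter, sum_const, smul_eq_mul,
        mul_one]
      omega))
  have j4 : ∀ v, deg J0 v % 2 = z v % 2 := fun v => (ZMod.natCast_eq_natCast_iff' _ _ 2).1 (j3 v)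
  obtain ⟨J, k1, k2, k3, k4⟩ : ∃ J ⊆ E \ F, Sy J ∧ (∀ v, deg J v % 2 = deg J0 v % 2) ∧
      ∀ r ∈ R, 2 * deg J r = deg E r := by
    rcases hR0 with rfl | ⟨r, rfl⟩
    · exact ⟨J0, j1, j2, fun _ => rfl, by simp⟩
    · obtain ⟨J, k1, k2, k3, k4⟩ := jn_root hE hev hFo hV.sy hV.con j1 j2 (by
        rw [j4]
        simp [z, hF0 r (mem_singleton_self r)])
      exact ⟨J, k1, k2, k3, fun x hx => by rwa [mem_singleton.1 hx]⟩
  have hd : ∀ v, deg J v + deg F v = deg (J ∪ F) v := fun v => by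
    have h1 : (J ∪ F) \ F = J := by
      ext a
      have := @k1 a
      simp only [mem_sdiff, mem_union] at this ⊢
      tauto
    have h2 : deg ((J ∪ F) \ F) v + deg F v = deg (J ∪ F) v := dg_sdiff _ subset_union_right v
    rwa [h1] at h2
  refine ⟨R, A, F, J ∪ F, hR, hV, subset_union_right, union_subset (k1.trans sdiff_subset) hFE,
    fun a ha => ?_, fun v hv hp => ?_, fun r hr => ?_, hmin⟩
  · rw [mem_union] at ha ⊢
    exact ha.imp (k2 a) (hV.sy a)
  · have h1 := hd v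
    have h2 := k3 v
    have h3 := j4 v
    by_cases h : v ∈ A
    · simp only [z, mem_filter, mem_sdiff, hW, hp, hv, h, not_false_eq_true, and_self, if_true,
        if_false] at h3
      simp only [h, iff_true]
      omega
    · simp only [z, mem_filter, mem_sdiff, hv, h, and_false, if_false] at h3
      simp only [h, iff_false]
      omega
  · have h1 := hd r
    have h2 := hF0 r hr
    have h3 := k4 r hr
    omega

end Pool.Agent.P.MP_0ad50f_co.EV
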