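import Pool.Agent.P.MP_0ad50f_co.EV.Join

/-! Even graphs: assembly. -/

namespace Pool.Agent.P.MP_0ad50f_co.EV

set_option linter.unusedSectionVars false

open Finset
open Pool.Agent.P.MP_0ad50f_co.D8

variable {V : Type} [Fintype V] [DecidableEq V]

/-- a majority neighbour sum distinguishing colouring of a dart system -/
def Col (E : Finset (V × V)) (c : V × V → ℕ) : Prop :=
  (∀ a ∈ E, c a.swap = c a ∧ 1 ≤ c a ∧ c a ≤ 5) ∧
    (∀ a ∈ E, ∑ b ∈ E.filter (fun b => b.1 = a.1), c b ≠
      ∑ b ∈ E.filter (fun b => b.1 = a.2), c b) ∧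
    ∀ v k, 2 * deg (E.filter fun b => c b = k) v ≤ deg E v

theorem sm_aff (D : Finset (V × V)) (f : V × V → ℤ) (c : ℤ) (v : V) :
    sm D (fun a => c + f a) v = c * deg D v + sm D f v := by
  simp [sm, sg, deg, dg, mul_comm, sum_add_distrib]

theorem connected {E : Finset (V × V)} (hE : Sys E Prod.fst) (hev : ∀ v, deg E v % 2 = 0)
    (hcon : ∀ a ∈ E, ∀ b ∈ E, Reach E Prod.fst a.1 b.1) : ∃ c, Col E c := by
  obtain ⟨R, A, F, O, hR, hV, hFO, hOE, hO, hpar, hr, hmin⟩ := join hE hev hcon
  have hd : ∀ v, deg (E \ O) v + deg O v = deg E v := fun v => dg_sdiff _ hOE v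
  obtain ⟨f, f1, f2, f3, f4⟩ := level hE hev hR hOE hO hV.le (fun v hv hp e h => by
    have := (hpar v hv hp).2 h
    have := hev v
    omega) hr hmin
  obtain ⟨g, g1, g2, g3, g4⟩ := level hE hev hR sdiff_subset (hE.sy.sdiff hO) hV.le
    (fun v hv hp e h => by
      have := (hpar v hv hp).2 h
      have := hd v
      omega) (fun r h => by
      have := hr r h
      have := hd r
      omega) hmin
  obtain ⟨l, l1, l2⟩ := hV.sep
    (fun v => 2 * deg O v + sm O f v + 3 * deg (E \ O) v + sm (E \ O) g v) (fun a => 3 - f a)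
    fun a ha => by
      obtain ⟨h1, h2⟩ := f1 a (hFO ha)
      exact ⟨by simp only [h1], by omega⟩
  let k : V × V → ℤ := fun a => if a ∈ O then 2 + f a + (if a ∈ F then l a else 0) else 3 + g a
  have kF : ∀ a ∈ F, k a = 2 + f a + l a := fun a ha => by simp only [k, if_pos ha, if_pos (hFO ha)]
  have kO : ∀ a ∈ O \ F, k a = 2 + f a := fun a ha => by
    simp only [k, if_pos (mem_sdiff.1 ha).1, if_neg (mem_sdiff.1 ha).2, add_zero]
  have kE : ∀ a ∈ E \ O, k a = 3 + g a := fun a ha => if_neg (mem_sdiff.1 ha).2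
  have kcase : ∀ a ∈ E, (a ∈ O ∧ f a = -1 ∧ k a = 1) ∨ (a ∈ E \ O ∧ g a = -1 ∧ k a = 2) ∨
      (a ∈ O ∧ f a = 1 ∧ k a = 3) ∨ (a ∈ E \ O ∧ g a = 1 ∧ k a = 4) ∨ (a ∈ F ∧ k a = 5) := by
    intro a ha
    by_cases h1 : a ∈ O
    · have h2 := (f1 a h1).2
      by_cases h3 : a ∈ F
      · have h4 := kF a h3
        have h5 := (l1 a h3).2
        simp only [h1, h3, mem_sdiff, not_true, and_false, false_and, false_or, true_and] at h5 ⊢
        omega
      · have h4 := kO a (mem_sdiff.2 ⟨h1, h3⟩)
        simp only [h1, h3, mem_sdiff, not_true, and_false, false_and, false_or, true_and]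
        omega
    · have h2 := mem_sdiff.2 ⟨ha, h1⟩
      have h3 := (g1 a h2).2
      have h4 := kE a h2
      have h5 : a ∉ F := fun h => h1 (hFO h)
      simp only [h1, h2, h5, false_and, false_or, true_and]
      omega
  have kc : ∀ a ∈ E, ((k a).toNat : ℤ) = k a := fun a ha => by
    have := kcase a ha
    omega
  have hsum : ∀ v, ((∑ b ∈ E.filter (fun b => b.1 = v), (k b).toNat : ℕ) : ℤ) =
      2 * deg O v + sm O f v + 3 * deg (E \ O) v + sm (E \ O) g v + sm F l v := fun v => by
    have e0 : ((∑ b ∈ E.filter (fun b => b.1 = v), (k b).toNat : ℕ) : ℤ) = sm E k v := by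
      push_cast
      exact sum_congr rfl fun a ha => kc a (mem_filter.1 ha).1
    have e1 : sm F k v = sm F (fun a => 2 + f a) v + sm F l v := by
      rw [ma_congr kF]
      exact sum_add_distrib
    rw [e0, ma_split hOE, ma_congr kE, sm_aff, ma_split hFO, ma_congr kO, e1, ← add_assoc (sm _ _ _),
      ← ma_split hFO, sm_aff]
    ring
  have hl : ∀ v, 0 ≤ sm F l v ∧ 2 ∣ sm F l v := fun v => by
    refine ⟨sum_nonneg fun a ha => ?_, dvd_sum fun a ha => ?_⟩ <;>
    · have h1 := (mem_filter.1 ha).1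
      have h2 := (l1 a h1).2
      have h3 := (f1 a (hFO h1)).2
      omega
  have cf := fun v => ma_cls f1 (r := 1) (Or.inl rfl) v
  have cf' := fun v => ma_cls f1 (r := -1) (Or.inr rfl) v
  have cg := fun v => ma_cls g1 (r := 1) (Or.inl rfl) v
  have cg' := fun v => ma_cls g1 (r := -1) (Or.inr rfl) v
  have root : ∀ r ∈ R, ∀ w, (r, w) ∈ E → ∑ b ∈ E.filter (fun b => b.1 = r), (k b).toNat ≠
      ∑ b ∈ E.filter (fun b => b.1 = w), (k b).toNat := fun r h w hw e => by
    have e1 := hsum r
    have e2 := hsum w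
    have e3 : sm O f r = -1 * deg O r := by
      rw [← sm_const (f := fun _ => -1) fun _ _ => rfl]
      exact sum_congr rfl fun a ha => f2 a (mem_filter.1 ha).1 ((mem_filter.1 ha).2 ▸ h)
    have e4 : sm (E \ O) g r = -1 * deg (E \ O) r := by
      rw [← sm_const (f := fun _ => -1) fun _ _ => rfl]
      exact sum_congr rfl fun a ha => g2 a (mem_filter.1 ha).1 ((mem_filter.1 ha).2 ▸ h)
    have e5 : sm F l r = 0 := sum_eq_zero fun a ha =>
      absurd ((mem_filter.1 ha).2 ▸ h) (mem_off.1 (mem_cut.1 (hV.sub (mem_filter.1 ha).1)).1).2.1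
    have e6 := hr r h
    have e7 := hd r
    have e8 := hd w
    have e9 : deg E r ≤ deg E w := hmin r h _ (hE.sy _ hw)
    have e10 := (hl w).1
    have e11 := f3 w
    have e12 := g3 w
    have e13 := cf w
    have e14 := cg w
    rw [e] at e1
    by_cases ho : (r, w) ∈ O
    · have := g4 r h w (mem_sdiff.2 ⟨hw, fun m => (mem_sdiff.1 m).2 ho⟩) (by omega) (by omega)
      omega
    · have := f4 r h w (mem_sdiff.2 ⟨hw, ho⟩) (by omega) (by omega)
      omega
  refine ⟨fun a => (k a).toNat, fun a ha => ⟨?_, ?_⟩, fun a ha => ?_, fun v n => ?_⟩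
  · have : k a.swap = k a := by
      by_cases h1 : a ∈ O
      · by_cases h2 : a ∈ F
        · rw [kF a h2, kF _ (hV.sy a h2), (f1 a h1).1, (l1 a h2).1]
        · have h3 := mem_sdiff.2 ⟨h1, h2⟩
          rw [kO a h3, kO _ (hO.sdiff hV.sy a h3), (f1 a h1).1]
      · have h3 := mem_sdiff.2 ⟨ha, h1⟩
        rw [kE a h3, kE _ (hE.sy.sdiff hO a h3), (g1 a h3).1]
    simp only [this]
  · have := kcase a ha
    beta_reduce
    omega
  · by_cases h1 : a.1 ∈ R
    · exact root _ h1 _ ha
    by_cases h2 : a.2 ∈ R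
    · exact (root _ h2 _ (hE.sy a ha)).symm
    intro e
    have e1 := hsum a.1
    have e2 := hsum a.2
    rw [e, e2] at e1
    by_cases hu : a.1 ∈ A ↔ a.2 ∈ A
    · exact l2 a (mem_unc.2 ⟨mem_off.2 ⟨ha, h1, h2⟩, hu⟩) e1.symm
    · have p1 := hpar _ h1 (deg_pos (x := a.2) ha)
      have p2 := hpar _ h2 (deg_pos (x := a.1) (hE.sy a ha))
      rw [← p1, ← p2] at hu
      have q1 := (hl a.1).2
      have q2 := (hl a.2).2
      have q3 := cf a.1
      have q4 := cf a.2
      have q5 := cg a.1
      have q6 := cg a.2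
      omega
  · have sub : ∀ D : Finset (V × V), (∀ a ∈ E, k a = n → a ∈ D) →
        deg (E.filter fun b => (k b).toNat = n) v ≤ deg D v := fun D h =>
      dg_mono _ (fun a ha => by
        obtain ⟨h1, h2⟩ := mem_filter.1 ha
        exact h a h1 (by rw [← kc a h1, h2])) v
    beta_reduce
    have e1 := f3 v
    have e2 := g3 v
    by_cases n1 : n = 1
    · have := sub (O.filter fun a => f a = -1) fun a ha e => by
        rcases kcase a ha with h | h | h | h | h
        · exact mem_filter.2 ⟨h.1, h.2.1⟩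
        all_goals omega
      have := cf' v
      omega
    by_cases n2 : n = 2
    · have := sub ((E \ O).filter fun a => g a = -1) fun a ha e => by
        rcases kcase a ha with h | h | h | h | h
        · omega
        · exact mem_filter.2 ⟨h.1, h.2.1⟩
        all_goals omega
      have := cg' v
      omega
    by_cases n3 : n = 3
    · have := sub (O.filter fun a => f a = 1) fun a ha e => by
        rcases kcase a ha with h | h | h | h | h
        · omega
        · omega
        · exact mem_filter.2 ⟨h.1, h.2.1⟩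
        all_goals omega
      have := cf v
      omega
    by_cases n4 : n = 4
    · have := sub ((E \ O).filter fun a => g a = 1) fun a ha e => by
        rcases kcase a ha with h | h | h | h | h
        · omega
        · omega
        · omega
        · exact mem_filter.2 ⟨h.1, h.2.1⟩
        · omega
      have := cg v
      omega
    · have := sub F fun a ha e => by
        rcases kcase a ha with h | h | h | h | h
        · omega
        · omega
        · omega
        · omega
        · exact h.1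
      have h1 := hV.half v
      have h2 : deg (off E R) v ≤ deg E v := dg_mono _ (filter_subset _ _) v
      have h3 := hev v
      omega

theorem colouring (n : ℕ) : ∀ {E : Finset (V × V)}, E.card = n → Sys E Prod.fst →
    (∀ v, deg E v % 2 = 0) → ∃ c, Col E c := by
  classical
  induction n using Nat.strong_induction_on with
  | _ n ih =>
  intro E hn hE hev
  rcases E.eq_empty_or_nonempty with rfl | ⟨a0, ha0⟩
  · exact connected hE hev (by simp)
  let C := E.filter fun a => Reach E Prod.fst a0.1 a.1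
  have hC : ∀ a, a ∈ C ↔ a ∈ E ∧ Reach E Prod.fst a0.1 a.1 := fun a => mem_filter
  have hCE : C ⊆ E := filter_subset _ _
  have hCs : Sy C := fun a ha =>
    (hC _).2 ⟨hE.sy a ((hC a).1 ha).1, ((hC a).1 ha).2.trans (Reach.dart _ ((hC a).1 ha).1)⟩
  have i1 : ∀ v, Reach E Prod.fst a0.1 v →
      E.filter (fun b => b.1 = v) = C.filter (fun b => b.1 = v) := fun v hv => by
    ext b
    simp only [mem_filter, hC]
    exact ⟨fun h => ⟨⟨h.1, h.2 ▸ hv⟩, h.2⟩, fun h => ⟨h.1.1, h.2⟩⟩
  have i2 : ∀ v, ¬ Reach E Prod.fst a0.1 v →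
      E.filter (fun b => b.1 = v) = (E \ C).filter (fun b => b.1 = v) := fun v hv => by
    ext b
    simp only [mem_filter, mem_sdiff, hC]
    exact ⟨fun h => ⟨⟨h.1, fun m => hv (h.2 ▸ m.2)⟩, h.2⟩, fun h => ⟨h.1.1, h.2⟩⟩
  have hd : ∀ v, deg (E \ C) v + deg C v = deg E v := fun v => dg_sdiff _ hCE v
  have hevC : ∀ v, deg C v % 2 = 0 ∧ deg (E \ C) v % 2 = 0 := fun v => by
    have h1 := hd v
    have h2 := hev v
    by_cases hv : Reach E Prod.fst a0.1 v
    · have : deg E v = deg C v := congrArg card (i1 v hv)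
      omega
    · have : deg E v = deg (E \ C) v := congrArg card (i2 v hv)
      omega
  have hr : ∀ v, Reach E Prod.fst a0.1 v → Reach C Prod.fst a0.1 v := fun v hv => by
    induction hv with
    | refl => exact Reach.refl _ _ _
    | tail h1 hs ih =>
      obtain ⟨a, ha, rfl, rfl⟩ := hs
      exact ih.trans (Reach.dart _ ((hC a).2 ⟨ha, h1⟩))
  obtain ⟨c1, p1, p2, p3⟩ := connected (hE.mono hCE hCs) (fun v => (hevC v).1) fun a ha b hb =>
    ((hr _ ((hC a).1 ha).2).symm hCs).trans (hr _ ((hC b).1 hb).2)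
  obtain ⟨c2, q1, q2, q3⟩ := ih (E \ C).card (hn ▸ card_lt_card ⟨sdiff_subset, fun h =>
    (mem_sdiff.1 (h ha0)).2 ((hC _).2 ⟨ha0, Reach.refl _ _ _⟩)⟩) rfl
    (hE.mono sdiff_subset (hE.sy.sdiff hCs)) fun v => (hevC v).2
  have s1 : ∀ v, Reach E Prod.fst a0.1 v → ∑ b ∈ E.filter (fun b => b.1 = v),
      (if b ∈ C then c1 b else c2 b) = ∑ b ∈ C.filter (fun b => b.1 = v), c1 b := fun v hv => by
    rw [i1 v hv]
    exact sum_congr rfl fun b hb => if_pos (mem_filter.1 hb).1
  have s2 : ∀ v, ¬ Reach E Prod.fst a0.1 v → ∑ b ∈ E.filter (fun b => b.1 = v),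
      (if b ∈ C then c1 b else c2 b) = ∑ b ∈ (E \ C).filter (fun b => b.1 = v), c2 b :=
    fun v hv => by
      rw [i2 v hv]
      exact sum_congr rfl fun b hb => if_neg (mem_sdiff.1 (mem_filter.1 hb).1).2
  refine ⟨fun a => if a ∈ C then c1 a else c2 a, fun a ha => ?_, fun a ha => ?_, fun v k => ?_⟩
  · by_cases h : a ∈ C
    · simp only [if_pos h, if_pos (hCs a h)]
      exact p1 a h
    · have h' : a.swap ∉ C := fun e => h (by simpa using hCs _ e)
      simp only [if_neg h, if_neg h']
      exact q1 a (mem_sdiff.2 ⟨ha, h⟩)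
  · by_cases h : Reach E Prod.fst a0.1 a.1
    · rw [s1 _ h, s1 a.2 (h.trans (Reach.dart _ ha))]
      exact p2 a ((hC a).2 ⟨ha, h⟩)
    · rw [s2 _ h, s2 a.2 fun m => h (m.trans (Reach.dart _ (hE.sy a ha)))]
      exact q2 a (mem_sdiff.2 ⟨ha, fun m => h ((hC a).1 m).2⟩)
  · have h1 := hd v
    beta_reduce
    by_cases h : Reach E Prod.fst a0.1 v
    · have h2 := p3 v k
      have h3 : deg (E.filter fun b => (if b ∈ C then c1 b else c2 b) = k) v =
          deg (C.filter fun b => c1 b = k) v := by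
        refine congrArg card ?_
        ext b
        simp only [mem_filter, hC]
        constructor
        · rintro ⟨⟨x, y⟩, rfl⟩
          rw [if_pos ⟨x, h⟩] at y
          exact ⟨⟨⟨x, h⟩, y⟩, rfl⟩
        · rintro ⟨⟨x, y⟩, z⟩
          exact ⟨⟨x.1, by rw [if_pos x, y]⟩, z⟩
      omega
    · have h2 := q3 v k
      have h3 : deg (E.filter fun b => (if b ∈ C then c1 b else c2 b) = k) v =
          deg ((E \ C).filter fun b => c2 b = k) v := by
        refine congrArg card ?_
        ext b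
        simp only [mem_filter, mem_sdiff, hC]
        constructor
        · rintro ⟨⟨x, y⟩, rfl⟩
          rw [if_neg fun m => h m.2] at y
          exact ⟨⟨⟨x, fun m => h m.2⟩, y⟩, rfl⟩
        · rintro ⟨⟨x, y⟩, z⟩
          exact ⟨⟨x.1, by rw [if_neg x.2, y]⟩, z⟩
      omega

theorem main (G : SimpleGraph V) [DecidableRel G.Adj] (hG : ∀ v, Even (G.degree v)) :
    ∃ c : Sym2 V → ℕ, (∀ e ∈ G.edgeSet, 1 ≤ c e ∧ c e ≤ 5) ∧
      (∀ u v, G.Adj u v →
        ∑ w ∈ G.neighborFinset u, c s(u, w) ≠ ∑ w ∈ G.neighborFinset v, c s(v, w)) ∧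
      ∀ v a, 2 * ((G.neighborFinset v).filter fun w => c s(v, w) = a).card ≤ G.degree v := by
  let E : Finset (V × V) := univ.filter fun a => G.Adj a.1 a.2
  have mE : ∀ a : V × V, a ∈ E ↔ G.Adj a.1 a.2 := fun a => by simp [E]
  have hE : Sys E Prod.fst :=
    ⟨fun a ha => (mE _).2 ((mE a).1 ha).symm, fun a ha => ((mE a).1 ha).ne'⟩
  have hf : ∀ v, E.filter (fun b => b.1 = v) =
      (G.neighborFinset v).map ⟨fun w => (v, w), fun _ _ h => (Prod.ext_iff.1 h).2⟩ := fun v => by
    ext ⟨p, q⟩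
    simp only [mem_filter, mE, mem_map, SimpleGraph.mem_neighborFinset]
    constructor
    · rintro ⟨h, rfl⟩
      exact ⟨q, h, rfl⟩
    · rintro ⟨w, h, e⟩
      obtain ⟨rfl, rfl⟩ : v = p ∧ w = q := Prod.mk.inj e
      exact ⟨h, rfl⟩
  have hd : ∀ v, deg E v = G.degree v := fun v => by
    unfold deg dg
    rw [hf, card_map, SimpleGraph.card_neighborFinset_eq_degree]
  obtain ⟨c, h1, h2, h3⟩ := colouring _ rfl hE fun v => by
    rw [hd]
    exact Nat.even_iff.1 (hG v)
  let c' : Sym2 V → ℕ := Sym2.lift ⟨fun u w => max (c (u, w)) (c (w, u)), fun _ _ => max_comm _ _⟩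
  have hc : ∀ u w, G.Adj u w → c' s(u, w) = c (u, w) := fun u w h => by
    have := (h1 (u, w) ((mE _).2 h)).1
    simp only [Prod.swap_prod_mk] at this
    simp [c', this]
  have hs : ∀ u, ∑ w ∈ G.neighborFinset u, c' s(u, w) = ∑ b ∈ E.filter (fun b => b.1 = u), c b :=
    fun u => by
      rw [hf, sum_map]
      exact sum_congr rfl fun w hw => hc u w (by simpa using hw)
  refine ⟨c', fun e he => ?_, fun u v h => ?_, fun v a => ?_⟩
  · induction e using Sym2.ind with
    | _ u w =>
      rw [hc u w he]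
      exact (h1 (u, w) ((mE _).2 he)).2
  · rw [hs, hs]
    exact h2 (u, v) ((mE _).2 h)
  · have := h3 v a
    rw [hd] at this
    refine le_trans (le_of_eq ?_) this
    unfold deg dg
    rw [filter_comm, hf, filter_map, card_map]
    congr 2
    exact filter_congr fun w hw => by
      rw [hc v w (by simpa using hw)]
      rfl

end Pool.Agent.P.MP_0ad50f_co.EV
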